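import Mathlib
import Pool.Graph.R_seed8.R113.CE.Main

/-!
# Chase-escape with conversion on graphs of bounded degree: `λ_c(α) / α` converges
-/

set_option autoImplicit false

open MeasureTheory Filter Topology
open scoped ENNReal

namespace Pool.Agent.Results.MP_3523e7_pr.BoundedDegreeGraphs

variable {V : Type} [DecidableEq V]

/-- a configuration with finitely many non-white vertices:
the set of the red vertices and the set of the blue vertices -/
abbrev Config (V : Type) := Finset V × Finset V

/-- the vertex `o` is red, all other vertices are white -/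
def init (o : V) : Config V := ({o}, ∅)

/-- `rate G lam α β s t`: the rate at which chase-escape with conversion on the graph `G` jumps from
`s` to `t`. For each red `x`: each white neighbour `z` of `x` turns red at rate `lam`; `x` turns blue
at rate `α` (conversion), and at rate `β` for each blue neighbour `y` of `x` (predation). -/
noncomputable def rate (G : SimpleGraph V) [G.LocallyFinite] (lam α β : ℝ) (s t : Config V) :
    ℝ≥0∞ :=
  ∑ x ∈ s.1,
    ((∑ z ∈ G.neighborFinset x, if (z ∉ s.1 ∧ z ∉ s.2) ∧ t = (insert z s.1, s.2) then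
        ENNReal.ofReal lam else 0)
      + (if t = (s.1.erase x, insert x s.2) then ENNReal.ofReal α else 0)
      + ∑ y ∈ G.neighborFinset x, if y ∈ s.2 ∧ t = (s.1.erase x, insert x s.2) then
        ENNReal.ofReal β else 0)

open Classical in
/-- one jump of the process: the next configuration is `t` with probability
`rate s t / ∑ t', rate s t'`; a configuration which cannot be left stays -/
noncomputable def jump (G : SimpleGraph V) [G.LocallyFinite] (lam α β : ℝ) (s : Config V) :
    PMF (Config V) :=
  if h : (∑' t, rate G lam α β s t) ≠ 0 ∧ (∑' t, rate G lam α β s t) ≠ ∞ then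
    PMF.normalize (rate G lam α β s) h.1 h.2
  else PMF.pure s

/-- the law of the configuration after `n` jumps, starting from `s` -/
noncomputable def law (G : SimpleGraph V) [G.LocallyFinite] (lam α β : ℝ) (s : Config V) :
    ℕ → PMF (Config V)
  | 0 => PMF.pure s
  | n + 1 => (law G lam α β s n).bind (jump G lam α β)

/-- `P(X < ∞)`, started from the red vertex `o`: the probability that the process fixates, i.e. that
there is no red vertex after `n` jumps for some `n` (these events increase with `n`, as a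
configuration without red vertex is never left; a configuration with a red vertex is always left,
since `α > 0`) -/
noncomputable def probFinite (G : SimpleGraph V) [G.LocallyFinite] (o : V) (lam α β : ℝ) : ℝ≥0∞ :=
  ⨆ n, (law G lam α β (init o) n).toOuterMeasure {s | s.1 = ∅}

/-- the critical rate `λ_c(α)` in `[0, ∞]` for the predation rate `β`, started from `o`: the
supremum of the rates `λ > 0` at which `X < ∞` almost surely -/
noncomputable def critical (G : SimpleGraph V) [G.LocallyFinite] (o : V) (α β : ℝ) : ℝ≥0∞ :=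
  ⨆ (lam : ℝ) (_ : 0 < lam ∧ probFinite G o lam α β = 1), ENNReal.ofReal lam

/-- the graph `G` contains the square lattice `ℤ²` as a subgraph -/
def ContainsSquareLattice (G : SimpleGraph V) : Prop :=
  ∃ f : ℤ × ℤ → V, Function.Injective f ∧
    ∀ i j : ℤ, G.Adj (f (i, j)) (f (i + 1, j)) ∧ G.Adj (f (i, j)) (f (i, j + 1))

/-! ### Proof -/

open Pool.Agent.R113.CE

section proc

variable (G : SimpleGraph V) [G.LocallyFinite]

/-- neighbours -/
abbrev N (x : V) : Finset V := G.neighborFinset x

/-- removal rates -/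
noncomputable def c (α β : ℝ) (s : Config V) (x : V) : ℝ :=
  if 0 < α ∧ 0 ≤ β then α + β * ((N G x ∩ s.2).card : ℝ) else 1

theorem c_pos (α β : ℝ) (s : Config V) (x : V) : 0 < c G α β s x := by
  unfold c
  split_ifs with h
  · have := h.1
    have := h.2
    positivity
  · exact one_pos

theorem tsum_rate (lam α : ℝ) {β : ℝ} (hβ : 0 ≤ β) (s : Config V) (F : Config V → ℝ≥0∞) :
    ∑' t, rate G lam α β s t * F t = ∑ x ∈ s.1,
      ((ENNReal.ofReal α + ENNReal.ofReal (β * ((N G x ∩ s.2).card : ℝ))) * F (rem s x)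
        + ENNReal.ofReal lam * ∑ z ∈ Wh (N G) s x, F (inf s z)) := by
  have hone : ∀ (t0 : Config V) (p : Prop) [Decidable p] (a : ℝ≥0∞) (q : Config V → Prop)
      [DecidablePred q], (∀ t, q t ↔ p ∧ t = t0) →
      ∑' t, (if q t then a else 0) * F t = if p then a * F t0 else 0 := by
    intro t0 p _ a q _ hq
    rw [tsum_eq_single t0]
    · by_cases hp : p
      · rw [if_pos hp, if_pos ((hq t0).mpr ⟨hp, rfl⟩)]
      · rw [if_neg hp, if_neg (fun h => hp ((hq t0).mp h).1), zero_mul]
    · intro t ht
      rw [if_neg (fun h => ht ((hq t).mp h).2), zero_mul]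
  unfold rate
  simp only [Finset.sum_mul]
  rw [Summable.tsum_finsetSum (fun _ _ => ENNReal.summable)]
  refine Finset.sum_congr rfl fun x hx => ?_
  simp only [add_mul, Finset.sum_mul]
  rw [ENNReal.tsum_add, ENNReal.tsum_add, Summable.tsum_finsetSum (fun _ _ => ENNReal.summable),
    Summable.tsum_finsetSum (fun _ _ => ENNReal.summable)]
  have e1 : ∀ z ∈ N G x, ∑' t, (if (z ∉ s.1 ∧ z ∉ s.2) ∧ t = (insert z s.1, s.2) then
      ENNReal.ofReal lam else 0) * F t
      = if z ∉ s.1 ∧ z ∉ s.2 then ENNReal.ofReal lam * F (inf s z) else 0 :=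
    fun z _ => hone (insert z s.1, s.2) _ _ _ fun t => Iff.rfl
  have e2 : ∑' t, (if t = (s.1.erase x, insert x s.2) then ENNReal.ofReal α else 0) * F t
      = ENNReal.ofReal α * F (rem s x) := by
    have := hone (s.1.erase x, insert x s.2) True (ENNReal.ofReal α)
      (fun t => t = (s.1.erase x, insert x s.2)) (fun t => by simp)
    rw [if_pos trivial] at this
    exact this
  have e3 : ∀ y ∈ N G x, ∑' t, (if y ∈ s.2 ∧ t = (s.1.erase x, insert x s.2) then
      ENNReal.ofReal β else 0) * F t = if y ∈ s.2 then ENNReal.ofReal β * F (rem s x) else 0 :=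
    fun y _ => hone (s.1.erase x, insert x s.2) _ _ _ fun t => Iff.rfl
  rw [Finset.sum_congr rfl e1, e2, Finset.sum_congr rfl e3]
  have e4 : ∑ z ∈ N G x, (if z ∉ s.1 ∧ z ∉ s.2 then ENNReal.ofReal lam * F (inf s z) else 0)
      = ENNReal.ofReal lam * ∑ z ∈ Wh (N G) s x, F (inf s z) := by
    rw [← Finset.sum_filter, Finset.mul_sum]
    refine Finset.sum_congr ?_ fun _ _ => rfl
    ext z
    rw [Finset.mem_filter, mem_Wh]
  have e5 : ∑ y ∈ N G x, (if y ∈ s.2 then ENNReal.ofReal β * F (rem s x) else 0)
      = ENNReal.ofReal (β * ((N G x ∩ s.2).card : ℝ)) * F (rem s x) := by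
    rw [← Finset.sum_filter, Finset.sum_const, nsmul_eq_mul, ENNReal.ofReal_mul hβ,
      ENNReal.ofReal_natCast, Finset.filter_mem_eq_inter]
    ring
  rw [e4, e5]
  ring

theorem law_succ' (lam α β : ℝ) (n : ℕ) (s : Config V) :
    law G lam α β s (n + 1) = (jump G lam α β s).bind fun t => law G lam α β t n := by
  induction n generalizing s with
  | zero =>
    simp only [law, PMF.pure_bind]
    exact (PMF.bind_pure _).symm
  | succ n ih =>
    have h1 : law G lam α β s (n + 1 + 1) = (law G lam α β s (n + 1)).bind (jump G lam α β) := rfl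
    rw [h1, ih, PMF.bind_bind]
    rfl

theorem law_eq {lam α β : ℝ} (hl : 0 ≤ lam) (hα : 0 < α) (hβ : 0 ≤ β) (n : ℕ) : ∀ s : Config V,
    (law G lam α β s n).toOuterMeasure {s | s.1 = ∅} =
      ENNReal.ofReal (A (N G) (c G α β) lam n s) := by
  have hc := c_pos G α β
  induction n with
  | zero =>
    intro s
    simp only [law, A]
    rw [PMF.toOuterMeasure_pure_apply]
    by_cases h : s.1 = ∅
    · rw [if_pos h, if_pos (by exact h)]; simp
    · rw [if_neg h, if_neg (by exact h)]; simp
  | succ n ih =>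
    intro s
    rw [law_succ', PMF.toOuterMeasure_bind_apply]
    by_cases h : s.1 = ∅
    · have h0 : (∑' t, rate G lam α β s t) = 0 := by
        have := tsum_rate G lam α hβ s (fun _ => 1)
        simp only [mul_one] at this
        rw [this, h, Finset.sum_empty]
      have hj : jump G lam α β s = PMF.pure s := by
        unfold jump
        rw [dif_neg]
        exact fun hh => hh.1 h0
      rw [hj]
      have h1 : ∀ t, (PMF.pure s) t * (law G lam α β t n).toOuterMeasure {s | s.1 = ∅}
          = (if t = s then (law G lam α β s n).toOuterMeasure {s | s.1 = ∅} else 0) := by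
        intro t
        rw [PMF.pure_apply]
        by_cases hts : t = s
        · rw [if_pos hts, if_pos hts, one_mul, hts]
        · rw [if_neg hts, if_neg hts, zero_mul]
      rw [tsum_congr h1, tsum_ite_eq, ih, A_empty (N G) _ _ _ h, A_empty (N G) _ _ _ h]
    · -- the total rate
      have hcast : ∀ x, ENNReal.ofReal α + ENNReal.ofReal (β * ((N G x ∩ s.2).card : ℝ))
          = ENNReal.ofReal (c G α β s x) := by
        intro x
        unfold c
        rw [if_pos ⟨hα, hβ⟩, ENNReal.ofReal_add hα.le (mul_nonneg hβ (Nat.cast_nonneg _))]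
      have hsum : ∀ (f : Config V → ℝ), (∀ t, 0 ≤ f t) →
          ∑' t, rate G lam α β s t * ENNReal.ofReal (f t) = ENNReal.ofReal (∑ x ∈ s.1,
            (c G α β s x * f (rem s x) + lam * ∑ z ∈ Wh (N G) s x, f (inf s z))) := by
        intro f hf
        rw [tsum_rate G lam α hβ, ENNReal.ofReal_sum_of_nonneg]
        · refine Finset.sum_congr rfl fun x _ => ?_
          rw [hcast, ← ENNReal.ofReal_mul (hc s x).le, ← ENNReal.ofReal_sum_of_nonneg
            (fun z _ => hf _), ← ENNReal.ofReal_mul hl, ← ENNReal.ofReal_add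
            (mul_nonneg (hc s x).le (hf _)) (mul_nonneg hl (Finset.sum_nonneg fun z _ => hf _))]
        · intro x _
          exact add_nonneg (mul_nonneg (hc s x).le (hf _))
            (mul_nonneg hl (Finset.sum_nonneg fun z _ => hf _))
      have htot : (∑' t, rate G lam α β s t)
          = ENNReal.ofReal (∑ x ∈ s.1, (c G α β s x + lam * (Wh (N G) s x).card)) := by
        have := hsum (fun _ => 1) (fun _ => zero_le_one)
        simp only [ENNReal.ofReal_one, mul_one, Finset.sum_const, nsmul_eq_mul] at this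
        exact this
      have hD := den_pos (N G) hc hl h
      have hne : (∑' t, rate G lam α β s t) ≠ 0 ∧ (∑' t, rate G lam α β s t) ≠ ∞ := by
        rw [htot]
        exact ⟨(ENNReal.ofReal_pos.mpr hD).ne', ENNReal.ofReal_ne_top⟩
      have hj : jump G lam α β s = PMF.normalize (rate G lam α β s) hne.1 hne.2 := by
        unfold jump
        rw [dif_pos hne]
      rw [hj]
      have h1 : ∀ t, (PMF.normalize (rate G lam α β s) hne.1 hne.2) t *
          (law G lam α β t n).toOuterMeasure {s | s.1 = ∅}
          = (rate G lam α β s t * ENNReal.ofReal (A (N G) (c G α β) lam n t)) *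
            (∑' t, rate G lam α β s t)⁻¹ := by
        intro t
        rw [PMF.normalize_apply, ih t]
        ring
      rw [tsum_congr h1, ENNReal.tsum_mul_right, hsum _ (fun t => A_nonneg (N G) hc hl n t), htot]
      simp only [A, h, if_false]
      rw [ENNReal.ofReal_div_of_pos hD, div_eq_mul_inv]

/-- the rates of infection at which the epidemic started from `o` dies out -/
def T (o : V) : Set ℝ := {θ | 0 < θ ∧ (⨆ n, ENNReal.ofReal (g (N G) θ n (init o))) = 1}

/-- the critical rate of the epidemic -/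
noncomputable def tc (o : V) : ℝ≥0∞ := ⨆ (θ : ℝ) (_ : θ ∈ T G o), ENNReal.ofReal θ

theorem dies_iff {lam α β : ℝ} (o : V) (hl : 0 < lam) (hα : 0 < α) (hβ : 0 ≤ β) :
    probFinite G o lam α β = 1 ↔
      (⨆ n, ENNReal.ofReal (A (N G) (c G α β) lam n (init o))) = 1 := by
  unfold probFinite
  rw [iSup_congr fun n => law_eq G hl.le hα hβ n (init o)]

theorem le_critical (o : V) {α β : ℝ} (hα : 0 < α) (hβ : 0 ≤ β) :
    tc G o * ENNReal.ofReal α ≤ critical G o α β := by
  unfold tc
  rw [ENNReal.iSup_mul]
  refine iSup_le fun θ => ?_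
  rw [ENNReal.iSup_mul]
  refine iSup_le fun h => ?_
  have hl : 0 < θ * α := mul_pos h.1 hα
  rw [← ENNReal.ofReal_mul h.1.le]
  unfold critical
  refine le_iSup₂_of_le (θ * α) ⟨hl, ?_⟩ le_rfl
  rw [dies_iff G o hl hα hβ]
  refine sup_eq_one (f := fun n => g (N G) θ n (init o)) (fun n => ?_) (fun n => ?_) h.2
  · refine cmp_ge (N G) (c_pos G α β) hl.le h.1.le (fun s x => ?_) n (init o)
    refine mul_le_mul_of_nonneg_left ?_ h.1.le
    unfold c
    rw [if_pos ⟨hα, hβ⟩]
    have : 0 ≤ β * ((N G x ∩ s.2).card : ℝ) := mul_nonneg hβ (Nat.cast_nonneg _)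
    linarith
  · exact A_le_one (N G) (c_pos G α β) hl.le n (init o)

theorem critical_le (o : V) {d : ℕ} (hd : ∀ x, G.degree x ≤ d) {α β : ℝ} (hα : 0 < α)
    (hβ : 0 ≤ β) : critical G o α β ≤ tc G o * ENNReal.ofReal (α + β * d) := by
  unfold critical
  refine iSup₂_le fun l h => ?_
  have h4 : 0 < α + β * d := by positivity
  have hθ : 0 < l / (α + β * d) := div_pos h.1 h4
  have h5 : ENNReal.ofReal l = ENNReal.ofReal (l / (α + β * d)) * ENNReal.ofReal (α + β * d) := by
    rw [← ENNReal.ofReal_mul hθ.le, div_mul_cancel₀ _ h4.ne']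
  rw [h5]
  refine mul_le_mul_left ?_ _
  unfold tc
  refine le_iSup₂_of_le (l / (α + β * d)) ⟨hθ, ?_⟩ le_rfl
  have h6 := (dies_iff G o h.1 hα hβ).mp h.2
  refine sup_eq_one (f := fun n => A (N G) (c G α β) l n (init o)) (fun n => ?_) (fun n => ?_) h6
  · refine cmp_le (N G) (c_pos G α β) h.1.le hθ.le n (init o) fun s x => ?_
    have h7 : c G α β s x ≤ α + β * d := by
      unfold c
      rw [if_pos ⟨hα, hβ⟩]
      have h8 : (N G x ∩ s.2).card ≤ d := (Finset.card_le_card Finset.inter_subset_left).trans
        ((G.card_neighborFinset_eq_degree x).le.trans (hd x))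
      have h9 : ((N G x ∩ s.2).card : ℝ) ≤ d := by exact_mod_cast h8
      have := mul_le_mul_of_nonneg_left h9 hβ
      linarith
    calc l / (α + β * d) * c G α β s x ≤ l / (α + β * d) * (α + β * d) :=
          mul_le_mul_of_nonneg_left h7 hθ.le
      _ = l := div_mul_cancel₀ l h4.ne'
  · exact g_le_one (N G) hθ.le n (init o)

end proc

/-! ### Comparisons for the epidemic -/

theorem sup_one_iff {f : ℕ → ℝ} (h1 : ∀ n, f n ≤ 1) :
    (⨆ n, ENNReal.ofReal (f n)) = 1 ↔ ∀ ε > 0, ∃ n, 1 - ε < f n := by
  constructor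
  · intro h ε hε
    by_contra hc
    push Not at hc
    have h2 : (⨆ n, ENNReal.ofReal (f n)) ≤ ENNReal.ofReal (1 - ε) :=
      iSup_le fun n => ENNReal.ofReal_le_ofReal (hc n)
    rw [h, ENNReal.one_le_ofReal] at h2
    linarith
  · intro h
    refine le_antisymm (iSup_le fun n => ?_) ?_
    · rw [← ENNReal.ofReal_one]
      exact ENNReal.ofReal_le_ofReal (h1 n)
    · refine le_of_forall_lt fun a ha => ?_
      have ha' : a ≠ ∞ := (ha.trans ENNReal.one_lt_top).ne
      have ha1 : a.toReal < 1 := by
        rw [← ENNReal.toReal_one]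
        exact (ENNReal.toReal_lt_toReal ha' ENNReal.one_ne_top).mpr ha
      obtain ⟨n, hn⟩ := h (1 - a.toReal) (by linarith)
      refine lt_of_lt_of_le ?_ (le_iSup _ n)
      rw [← ENNReal.ofReal_toReal ha']
      rw [ENNReal.ofReal_lt_ofReal_iff_of_nonneg ENNReal.toReal_nonneg]
      linarith

/-- the epidemic on a larger graph is less likely to die out -/
theorem g_mono {M M' : V → Finset V} (h : ∀ x, M x ⊆ M' x) {θ : ℝ} (hθ : 0 ≤ θ) (n : ℕ) :
    ∀ s : Finset V × Finset V, g M' θ n s ≤ g M θ n s := by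
  induction n with
  | zero => intro s; exact le_refl _
  | succ n ih =>
    intro s
    by_cases hs : s.1 = ∅
    · rw [g_empty M' _ _ hs, g_empty M _ _ hs]
    obtain ⟨x, hx⟩ := Finset.nonempty_iff_ne_empty.mpr hs
    have E' := abel M' hθ n s x hx
    have E := abel M hθ n s x hx
    have hsub : Wh M s x ⊆ Wh M' s x := Finset.sdiff_subset_sdiff (h x) (le_refl _)
    have hpos := pos_w hθ (Wh M' s x)
    refine le_of_mul_le_mul_left ?_ hpos
    rw [E']
    have h1 : ∑ z ∈ Wh M' s x, g M' θ n (inf s z) ≤
        ∑ z ∈ Wh M s x, g M θ n (inf s z) +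
          ((Wh M' s x).card - (Wh M s x).card : ℝ) * g M θ (n + 1) s := by
      rw [← Finset.sum_sdiff hsub, add_comm]
      have hc : ((Wh M' s x \ Wh M s x).card : ℝ) = (Wh M' s x).card - (Wh M s x).card := by
        rw [Finset.card_sdiff_of_subset hsub, Nat.cast_sub (Finset.card_le_card hsub)]
      rw [← hc, ← nsmul_eq_mul, ← Finset.sum_const]
      refine add_le_add (Finset.sum_le_sum fun z _ => ih _) (Finset.sum_le_sum fun z hz => ?_)
      have hz' := (mem_Wh M').mp (Finset.mem_sdiff.mp hz).1
      exact (ih _).trans (mono_inf M hθ n s z hz'.2.1 hz'.2.2)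
    have h2 := ih (rem s x)
    calc g M' θ n (rem s x) + θ * ∑ z ∈ Wh M' s x, g M' θ n (inf s z)
        ≤ g M θ n (rem s x) + θ * (∑ z ∈ Wh M s x, g M θ n (inf s z) +
          ((Wh M' s x).card - (Wh M s x).card : ℝ) * g M θ (n + 1) s) :=
          add_le_add h2 (mul_le_mul_of_nonneg_left h1 hθ)
      _ = (g M θ n (rem s x) + θ * ∑ z ∈ Wh M s x, g M θ n (inf s z)) +
          θ * (((Wh M' s x).card - (Wh M s x).card : ℝ) * g M θ (n + 1) s) := by ring
      _ = (1 + θ * (Wh M' s x).card) * g M θ (n + 1) s := by rw [← E]; ring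

/-- slow spreading dies out -/
theorem small' (M : V → Finset V) (d : ℕ) (hM : ∀ x, (M x).card ≤ d) (n : ℕ) :
    ∀ s : Finset V × Finset V,
    1 - g M (1 / (4 * (d + 1))) n s ≤ (4 / 5) ^ n * 2 ^ s.1.card := by
  set q : ℝ := 1 / (4 * (d + 1)) with hq
  have hq0 : 0 ≤ q := by rw [hq]; positivity
  have hqd : q * d ≤ 1 / 4 := by
    rw [hq, div_mul_eq_mul_div, div_le_div_iff₀ (by positivity) (by norm_num)]
    nlinarith
  induction n with
  | zero =>
    intro s
    have h1 := g_nonneg M (θ := q) hq0 0 s
    have h2 : (1 : ℝ) ≤ 2 ^ s.1.card := one_le_pow₀ (by norm_num)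
    rw [pow_zero, one_mul]
    linarith
  | succ n ih =>
    intro s
    by_cases hs : s.1 = ∅
    · rw [g_empty M _ _ hs, sub_self]
      positivity
    obtain ⟨x, hx⟩ := Finset.nonempty_iff_ne_empty.mpr hs
    have E := abel M hq0 n s x hx
    have hcard : (rem s x).1.card + 1 = s.1.card := Finset.card_erase_add_one hx
    have h1 := ih (rem s x)
    have h2 : ∑ z ∈ Wh M s x, (1 - g M q n (inf s z))
        ≤ ∑ z ∈ Wh M s x, ((4 / 5 : ℝ) ^ n * 2 ^ (s.1.card + 1)) := by
      refine Finset.sum_le_sum fun z hz => ?_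
      have h3 := ih (inf s z)
      have h4 : (inf s z).1.card = s.1.card + 1 :=
        Finset.card_insert_of_notMem ((mem_Wh M).mp hz).2.1
      rwa [h4] at h3
    rw [Finset.sum_sub_distrib, Finset.sum_const, Finset.sum_const, nsmul_eq_mul, nsmul_eq_mul,
      mul_one] at h2
    have hW : ((Wh M s x).card : ℝ) ≤ d := by
      have : (Wh M s x).card ≤ d := (Finset.card_le_card Finset.sdiff_subset).trans (hM x)
      exact_mod_cast this
    have hW0 : (0 : ℝ) ≤ ((Wh M s x).card : ℝ) := Nat.cast_nonneg _
    set a : ℝ := ((Wh M s x).card : ℝ) with ha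
    have hqa : q * a ≤ 1 / 4 := (mul_le_mul_of_nonneg_left hW hq0).trans hqd
    have hqa0 : 0 ≤ q * a := mul_nonneg hq0 hW0
    set Z : ℝ := (4 / 5 : ℝ) ^ n * 2 ^ (rem s x).1.card with hZ
    have hZ0 : 0 < Z := by positivity
    have e1 : (4 / 5 : ℝ) ^ n * 2 ^ (s.1.card + 1) = 4 * Z := by
      rw [hZ, ← hcard]; ring
    have e2 : (4 / 5 : ℝ) ^ (n + 1) * 2 ^ s.1.card = 8 / 5 * Z := by
      rw [hZ, ← hcard]; ring
    rw [e1] at h2
    rw [e2]
    have hpos : (0 : ℝ) < 1 + q * a := by positivity
    refine le_of_mul_le_mul_left ?_ hpos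
    have h5 : (1 + q * a) * (1 - g M q (n + 1) s)
        = (1 - g M q n (rem s x))
          + q * (a - ∑ z ∈ Wh M s x, g M q n (inf s z)) := by
      rw [mul_sub, E]; ring
    rw [h5]
    have h6 : q * (a - ∑ z ∈ Wh M s x, g M q n (inf s z)) ≤ q * (a * (4 * Z)) :=
      mul_le_mul_of_nonneg_left h2 hq0
    have h7 : 0 ≤ (1 / 4 - q * a) * Z := mul_nonneg (by linarith) hZ0.le
    nlinarith

/-- transport along an injective map -/
def im {W : Type} (f : W ↪ V) (s : Finset W × Finset W) : Finset V × Finset V :=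
  (s.1.map f, s.2.map f)

open Classical in
/-- the image of a graph -/
noncomputable def push {W : Type} (f : W ↪ V) (M : W → Finset W) (v : V) : Finset V :=
  if h : ∃ x, f x = v then (M h.choose).map f else ∅

theorem push_apply {W : Type} (f : W ↪ V) (M : W → Finset W) (x : W) :
    push f M (f x) = (M x).map f := by
  unfold push
  have h : ∃ y, f y = f x := ⟨x, rfl⟩
  rw [dif_pos h, f.injective h.choose_spec]

theorem g_push {W : Type} [DecidableEq W] (f : W ↪ V) (M : W → Finset W) (θ : ℝ) (n : ℕ) :
    ∀ s : Finset W × Finset W, g (push f M) θ n (im f s) = g M θ n s := by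
  have h1 : ∀ s : Finset W × Finset W, (im f s).1 = ∅ ↔ s.1 = ∅ := fun s => Finset.map_eq_empty
  have h2 : ∀ (s : Finset W × Finset W) x, Wh (push f M) (im f s) (f x) = (Wh M s x).map f := by
    intro s x
    unfold Wh im
    rw [push_apply, ← Finset.map_union, Finset.map_sdiff]
  have h3 : ∀ (s : Finset W × Finset W) x, rem (im f s) (f x) = im f (rem s x) := by
    intro s x
    unfold rem im
    rw [Finset.map_erase, Finset.map_insert]
  have h4 : ∀ (s : Finset W × Finset W) x, inf (im f s) (f x) = im f (inf s x) := by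
    intro s x
    unfold inf im
    rw [Finset.map_insert]
  induction n with
  | zero =>
    intro s
    rw [g_zero, g_zero]
    by_cases h : s.1 = ∅
    · rw [if_pos h, if_pos ((h1 s).mpr h)]
    · rw [if_neg h, if_neg (fun h' => h ((h1 s).mp h'))]
  | succ n ih =>
    intro s
    by_cases h : s.1 = ∅
    · rw [g_empty M _ _ h, g_empty _ _ _ ((h1 s).mpr h)]
    · rw [g_succ M θ n h, g_succ _ θ n (fun h' => h ((h1 s).mp h'))]
      have e1 : (im f s).1 = s.1.map f := rfl
      rw [e1, Finset.sum_map, Finset.sum_map]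
      congr 1
      · refine Finset.sum_congr rfl fun x _ => ?_
        rw [h3, ih, h2, Finset.sum_map]
        congr 2
        exact Finset.sum_congr rfl fun z _ => by rw [h4, ih]
      · refine Finset.sum_congr rfl fun x _ => ?_
        rw [h2, Finset.card_map]

section graph

variable (G : SimpleGraph V) [G.LocallyFinite]

theorem T_le (o : V) (f : ℤ × ℤ → V) (hf : Function.Injective f) (h0 : f (0, 0) = o)
    (hadj : ∀ i j : ℤ, G.Adj (f (i, j)) (f (i + 1, j)) ∧ G.Adj (f (i, j)) (f (i, j + 1)))
    {θ : ℝ} (h : θ ∈ T G o) : θ ≤ 4 * 884101250 := by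
  by_contra hcon
  have hlt : (4 * 884101250 : ℝ) ≤ θ := (not_le.mp hcon).le
  have hsub : ∀ v, push ⟨f, hf⟩ nb v ⊆ N G v := by
    intro v w hw
    by_cases hv : ∃ x, (⟨f, hf⟩ : ℤ × ℤ ↪ V) x = v
    · obtain ⟨x, rfl⟩ := hv
      rw [push_apply, Finset.mem_map] at hw
      obtain ⟨y, hy, rfl⟩ := hw
      rw [SimpleGraph.mem_neighborFinset]
      simp only [Function.Embedding.coeFn_mk]
      obtain ⟨i, j⟩ := x
      simp only [nb, Finset.mem_insert, Finset.mem_singleton] at hy
      rcases hy with rfl | rfl | rfl | rfl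
      · exact (hadj i j).1
      · have := (hadj (i - 1) j).1
        rw [sub_add_cancel] at this
        exact this.symm
      · exact (hadj i j).2
      · have := (hadj i (j - 1)).2
        rw [sub_add_cancel] at this
        exact this.symm
    · unfold push at hw
      rw [dif_neg hv] at hw
      simp at hw
  have him : init o = im ⟨f, hf⟩ ({((0 : ℤ), (0 : ℤ))}, ∅) := by
    unfold init im
    simp [h0]
  have h1 : (⨆ n, ENNReal.ofReal (g (N G) θ n (init o))) ≤ ENNReal.ofReal (1 / 4) := by
    refine iSup_le fun n => ENNReal.ofReal_le_ofReal ?_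
    refine (g_mono hsub h.1.le n (init o)).trans ?_
    rw [him, g_push]
    exact (g_anti nb (by norm_num) hlt n _).trans (big n)
  rw [h.2, ENNReal.one_le_ofReal] at h1
  norm_num at h1

theorem T_small (o : V) {d : ℕ} (hd : ∀ x, G.degree x ≤ d) : (1 / (4 * (d + 1)) : ℝ) ∈ T G o := by
  refine ⟨by positivity, ?_⟩
  rw [sup_one_iff (fun n => g_le_one (N G) (by positivity) n (init o))]
  intro ε hε
  have h2 := tendsto_pow_atTop_nhds_zero_of_lt_one (r := (4 / 5 : ℝ)) (by norm_num)
    (by norm_num)
  have h3 := (h2.mul_const 2)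
  rw [zero_mul] at h3
  obtain ⟨n, hn⟩ := (h3.eventually (gt_mem_nhds hε)).exists
  refine ⟨n, ?_⟩
  have h4 := small' (N G) d (fun x => (G.card_neighborFinset_eq_degree x).le.trans (hd x)) n
    (init o)
  have h5 : (init o).1.card = 1 := Finset.card_singleton _
  rw [h5, pow_one] at h4
  linarith

theorem T_adj {o z : V} (h : G.Adj o z) : T G o ⊆ T G z := by
  rintro θ ⟨hθ, h1⟩
  refine ⟨hθ, ?_⟩
  rw [sup_one_iff (fun n => g_le_one (N G) hθ.le n _)] at h1 ⊢
  intro ε hε
  set K : ℝ := 1 + θ * (Wh (N G) (init o) o).card with hK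
  have hKpos : 0 < K := pos_w hθ.le _
  obtain ⟨n, hn⟩ := h1 (ε * θ / K) (by positivity)
  -- we may take `n ≥ 1`
  rcases n with _ | n
  · have : g (N G) θ 0 (init o) = 0 := by
      rw [g_zero, if_neg]
      exact Finset.singleton_ne_empty o
    rw [this] at hn
    refine ⟨0, ?_⟩
    have h2 : g (N G) θ 0 (init z) = 0 := by
      rw [g_zero, if_neg]
      exact Finset.singleton_ne_empty z
    rw [h2]
    have h3 : 1 < ε * θ / K := by linarith
    rw [lt_div_iff₀ hKpos, one_mul] at h3
    have h5 : 1 ≤ ((Wh (N G) (init o) o).card : ℝ) := by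
      have : z ∈ Wh (N G) (init o) o := by
        rw [mem_Wh]
        refine ⟨(SimpleGraph.mem_neighborFinset G o z).mpr h, ?_, Finset.notMem_empty _⟩
        unfold init
        rw [Finset.mem_singleton]
        exact h.ne'
      have := Finset.card_pos.mpr ⟨z, this⟩
      exact_mod_cast this
    have h4 : θ ≤ K := by
      rw [hK]
      nlinarith
    nlinarith
  · refine ⟨n + 1, ?_⟩
    have hzW : z ∈ Wh (N G) (init o) o := by
      rw [mem_Wh]
      refine ⟨(SimpleGraph.mem_neighborFinset G o z).mpr h, ?_, Finset.notMem_empty _⟩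
      unfold init
      rw [Finset.mem_singleton]
      exact h.ne'
    have E := abel (N G) hθ.le n (init o) o (Finset.mem_singleton_self o)
    rw [← hK] at E
    have h2 : (∑ w ∈ Wh (N G) (init o) o, g (N G) θ n (inf (init o) w)) ≤
        ((Wh (N G) (init o) o).card : ℝ) - 1 + g (N G) θ n (inf (init o) z) := by
      rw [← Finset.add_sum_erase _ _ hzW, add_comm]
      refine add_le_add ?_ le_rfl
      refine (Finset.sum_le_sum fun w _ => g_le_one (N G) hθ.le n _).trans ?_
      rw [Finset.sum_const, nsmul_eq_mul, mul_one, card_er, if_pos hzW]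
    have h3 : g (N G) θ n (inf (init o) z) ≤ g (N G) θ (n + 1) (init z) := by
      have h4 : inf (init o) z = inf (init z) o := by
        unfold inf init
        rw [Finset.pair_comm]
      rw [h4]
      refine mono_inf (N G) hθ.le n (init z) o ?_ (Finset.notMem_empty _)
      unfold init
      rw [Finset.mem_singleton]
      exact h.ne
    have h5 := g_le_one (N G) hθ.le n (rem (init o) o)
    have h6 : K * g (N G) θ (n + 1) (init o) ≤
        K - θ + θ * g (N G) θ (n + 1) (init z) := by
      rw [E]
      have := mul_le_mul_of_nonneg_left (h2.trans (add_le_add le_rfl h3)) hθ.le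
      rw [hK]
      nlinarith
    have h7 : K * (1 - ε * θ / K) < K * g (N G) θ (n + 1) (init o) :=
      mul_lt_mul_of_pos_left hn hKpos
    have h8 : K * (1 - ε * θ / K) = K - ε * θ := by
      field_simp
    rw [h8] at h7
    have h9 : θ * (1 - ε) < θ * g (N G) θ (n + 1) (init z) := by linarith
    exact lt_of_mul_lt_mul_left h9 hθ.le

theorem tc_eq (hG : G.Preconnected) (o z : V) : tc G o = tc G z := by
  have h1 : ∀ {o z : V}, G.Reachable o z → T G o ⊆ T G z := by
    rintro o z ⟨p⟩
    induction p with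
    | nil => exact subset_rfl
    | cons h _ ih => exact (T_adj G h).trans ih
  have h2 : T G o = T G z := (h1 (hG o z)).antisymm (h1 (hG z o))
  unfold tc
  rw [h2]

end graph

/-- **Chase-escape with conversion on graphs of bounded degree.** Let `G` be a connected graph with
all degrees at most `d`. Then there is `C` in `(0, ∞]`, in fact `C ≥ 1 / (4 (d + 1))`, such that for
every starting vertex `o` and every predation rate `β ≥ 0` one has `λ_c(α) / α → C` as `α → ∞`, and
`C α ≤ λ_c(α) ≤ C (α + β d)` for every `α > 0`. If `G` contains the square lattice, `C` is finite.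
(`β = 1` is the process of the problem; for `β = 0` one gets `λ_c(α) = C α`, so `C` is the critical
rate of infection of the epidemic in which the infected vertices are removed at rate `1`.) -/
theorem result (V : Type) [DecidableEq V] (G : SimpleGraph V) [G.LocallyFinite]
    (hG : G.Connected) (d : ℕ) (hd : ∀ x, G.degree x ≤ d) :
    ∃ C : ℝ≥0∞, ENNReal.ofReal (1 / (4 * (d + 1))) ≤ C ∧
      (∀ (o : V) (β : ℝ), 0 ≤ β →
        Tendsto (fun α : ℝ => critical G o α β / ENNReal.ofReal α) atTop (𝓝 C)) ∧
      (∀ (o : V) (α β : ℝ), 0 < α → 0 ≤ β → C * ENNReal.ofReal α ≤ critical G o α β ∧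
        critical G o α β ≤ C * ENNReal.ofReal (α + β * d)) ∧
      (ContainsSquareLattice G → C ≠ ∞) := by
  obtain ⟨o₀⟩ := hG.nonempty
  have key : ∀ (o : V) (α β : ℝ), 0 < α → 0 ≤ β → tc G o₀ * ENNReal.ofReal α ≤ critical G o α β ∧
      critical G o α β ≤ tc G o₀ * ENNReal.ofReal (α + β * d) := by
    intro o α β hα hβ
    rw [tc_eq G hG.preconnected o₀ o]
    exact ⟨le_critical G o hα hβ, critical_le G o hd hα hβ⟩
  refine ⟨tc G o₀, ?_, fun o β hβ => ?_, key, ?_⟩
  · unfold tc
    exact le_iSup₂_of_le _ (T_small G o₀ hd) le_rfl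
  · have h1 : Tendsto (fun α : ℝ => tc G o₀ * ENNReal.ofReal (1 + β * d / α)) atTop
        (𝓝 (tc G o₀ * ENNReal.ofReal (1 + 0))) := by
      refine ENNReal.Tendsto.const_mul ?_ (Or.inl (by simp))
      refine ENNReal.tendsto_ofReal ?_
      exact (tendsto_const_nhds.div_atTop tendsto_id).const_add 1
    rw [add_zero, ENNReal.ofReal_one, mul_one] at h1
    refine tendsto_of_tendsto_of_tendsto_of_le_of_le' tendsto_const_nhds h1 ?_ ?_
    · filter_upwards [eventually_gt_atTop 0] with α hα
      rw [ENNReal.le_div_iff_mul_le (Or.inl (ENNReal.ofReal_pos.mpr hα).ne')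
        (Or.inl ENNReal.ofReal_ne_top)]
      exact (key o α β hα hβ).1
    · filter_upwards [eventually_gt_atTop 0] with α hα
      rw [ENNReal.div_le_iff_le_mul (Or.inl (ENNReal.ofReal_pos.mpr hα).ne')
        (Or.inl ENNReal.ofReal_ne_top)]
      refine (key o α β hα hβ).2.trans ?_
      rw [mul_assoc, ← ENNReal.ofReal_mul (by positivity)]
      have : (1 + β * d / α) * α = α + β * d := by
        field_simp
      rw [this]
  · rintro ⟨f, hf, hadj⟩
    rw [tc_eq G hG.preconnected o₀ (f (0, 0))]
    have h1 : tc G (f (0, 0)) ≤ ENNReal.ofReal (4 * 884101250) := by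
      unfold tc
      exact iSup₂_le fun θ hθ => ENNReal.ofReal_le_ofReal (T_le G _ f hf rfl hadj hθ)
    exact ne_top_of_le_ne_top ENNReal.ofReal_ne_top h1

end Pool.Agent.Results.MP_3523e7_pr.BoundedDegreeGraphs
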